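import Mathlib

/-!
# From windows of length `c log T` to windows of length `A log T`, to arithmetic progressions and
to counting functions
-/

set_option autoImplicit false

namespace Pool.Agent.K3h9.LW

open Finset

/-- covering a window by shorter ones -/
theorem card_cover (P : ℕ → Prop) [DecidablePred P] (T y Z : ℕ) (J : ℕ)
    (h : ∀ j, j < J → ((Icc (T + j * (y + 1)) (T + j * (y + 1) + y)).filter P).card ≤ Z) :
    ((Ico T (T + J * (y + 1))).filter P).card ≤ J * Z := by
  have hsub : (Ico T (T + J * (y + 1))).filter P ⊆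
      (range J).biUnion (fun j => (Icc (T + j * (y + 1)) (T + j * (y + 1) + y)).filter P) := by
    intro n hn
    rw [mem_filter, mem_Ico] at hn
    obtain ⟨⟨h1, h2⟩, h3⟩ := hn
    have hdm := Nat.div_add_mod (n - T) (y + 1)
    have hmod := Nat.mod_lt (n - T) (Nat.succ_pos y)
    rw [mem_biUnion]
    refine ⟨(n - T) / (y + 1), ?_, ?_⟩
    · rw [mem_range, Nat.div_lt_iff_lt_mul (Nat.succ_pos y), Nat.succ_eq_add_one]
      omega
    · rw [mem_filter, mem_Icc]
      have e : (n - T) / (y + 1) * (y + 1) = (y + 1) * ((n - T) / (y + 1)) := mul_comm _ _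
      rw [Nat.succ_eq_add_one] at hmod
      refine ⟨⟨?_, ?_⟩, h3⟩ <;> rw [e] <;> omega
  refine (card_le_card hsub).trans (card_biUnion_le.trans ?_)
  refine (sum_le_card_nsmul _ _ Z fun j hj => h j (mem_range.1 hj)).trans ?_
  rw [card_range, smul_eq_mul]

/-- from windows of length `c log T` to windows of length `A (1 + log T)` -/
theorem long (P : ℕ → Prop) [DecidablePred P] (c : ℝ) (Z : ℕ) (hc : 0 < c)
    (h : ∀ T Y : ℕ, 1 ≤ T → (Y : ℝ) ≤ c * Real.log T → ((Icc T (T + Y)).filter P).card ≤ Z)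
    (A : ℝ) (hA : 0 ≤ A) :
    ∃ Z' : ℕ, ∀ T Y : ℕ, 1 ≤ T → (Y : ℝ) ≤ A * (1 + Real.log T) →
      ((Icc T (T + Y)).filter P).card ≤ Z' := by
  refine ⟨(⌈A + A / c⌉₊ + 1) * Z, fun T Y hT hY => ?_⟩
  have hT0 : (0 : ℝ) < T := by exact_mod_cast hT
  have hL : 0 ≤ Real.log T := Real.log_natCast_nonneg _
  set y : ℕ := ⌊c * Real.log T⌋₊ with hy
  have hy1 : (y : ℝ) ≤ c * Real.log T := Nat.floor_le (by positivity)
  have hy2 : c * Real.log T < (y : ℝ) + 1 := Nat.lt_floor_add_one _
  set J : ℕ := ⌈A + A / c⌉₊ + 1 with hJ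
  have hJ1 : A + A / c + 1 ≤ (J : ℝ) := by
    rw [hJ]
    push_cast
    have := Nat.le_ceil (A + A / c)
    linarith
  have hcov := card_cover P T y Z J (fun j _ => h _ _ (by omega) (by
    refine hy1.trans (mul_le_mul_of_nonneg_left ?_ hc.le)
    apply Real.log_le_log hT0
    have : T ≤ T + j * (y + 1) := Nat.le_add_right _ _
    exact_mod_cast this))
  refine le_trans (card_le_card ?_) hcov
  apply filter_subset_filter
  intro n hn
  rw [mem_Icc] at hn
  rw [mem_Ico]
  refine ⟨hn.1, ?_⟩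
  have hy0 : (0 : ℝ) ≤ y := Nat.cast_nonneg _
  have h1 : (Y : ℝ) < J * ((y : ℝ) + 1) := by
    have h2 : A * Real.log T ≤ A / c * ((y : ℝ) + 1) := by
      rw [div_mul_eq_mul_div, le_div_iff₀ hc]
      calc A * Real.log T * c = A * (c * Real.log T) := by ring
        _ ≤ A * ((y : ℝ) + 1) := mul_le_mul_of_nonneg_left hy2.le hA
    have h3 : A ≤ A * ((y : ℝ) + 1) := by nlinarith
    calc (Y : ℝ) ≤ A + A * Real.log T := by linarith
      _ ≤ (A + A / c) * ((y : ℝ) + 1) := by linarith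
      _ < (A + A / c + 1) * ((y : ℝ) + 1) := by nlinarith
      _ ≤ J * ((y : ℝ) + 1) := mul_le_mul_of_nonneg_right hJ1 (by positivity)
  have h4 : Y < J * (y + 1) := by exact_mod_cast h1
  omega

/-- from residue classes to all integers -/
theorem classes (P : ℕ → Prop) [DecidablePred P] (q : ℕ) (hq : 1 ≤ q)
    (h : ∀ r < q, ∃ (c : ℝ) (Z : ℕ), 0 < c ∧ ∀ T Y : ℕ, 1 ≤ T → (Y : ℝ) ≤ c * Real.log T →
      ((Icc T (T + Y)).filter (fun t => P (r + q * t))).card ≤ Z) :
    ∃ Z : ℕ, ∀ N Y : ℕ, (Y : ℝ) ≤ 1 + Real.log N → ((Icc N (N + Y)).filter P).card ≤ Z := by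
  set A : ℝ := 3 + Real.log (2 * q) with hA
  have hq0 : (1 : ℝ) ≤ q := by exact_mod_cast hq
  have hlq : 0 ≤ Real.log (2 * q) := Real.log_nonneg (by linarith)
  have hA0 : 0 ≤ A := by linarith
  have h' : ∀ r : ℕ, ∃ Z' : ℕ, r < q → ∀ T Y : ℕ, 1 ≤ T → (Y : ℝ) ≤ A * (1 + Real.log T) →
      ((Icc T (T + Y)).filter (fun t => P (r + q * t))).card ≤ Z' := by
    intro r
    by_cases hr : r < q
    · obtain ⟨c, Z, hc, hZ⟩ := h r hr
      obtain ⟨Z', hZ'⟩ := long _ c Z hc hZ A hA0
      exact ⟨Z', fun _ => hZ'⟩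
    · exact ⟨0, fun h => absurd h hr⟩
  choose Z' hZ' using h'
  refine ⟨(∑ r ∈ range q, Z' r) + (q + 2), fun N Y hY => ?_⟩
  by_cases hN : N < q
  · have h1 : (Y : ℝ) ≤ q := by
      rcases Nat.eq_zero_or_pos N with h0 | h0
      · rw [h0, Nat.cast_zero, Real.log_zero, add_zero] at hY
        linarith
      · have h2 := Real.log_le_sub_one_of_pos (show (0 : ℝ) < N by exact_mod_cast h0)
        have h3 : (N : ℝ) ≤ q := by exact_mod_cast hN.le
        linarith
    have h2 : Y ≤ q := by exact_mod_cast h1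
    refine (card_filter_le _ _).trans ?_
    rw [Nat.card_Icc]
    omega
  · rw [not_lt] at hN
    set T := N / q with hT
    have hT1 : 1 ≤ T := (Nat.one_le_div_iff hq).2 hN
    have hT0 : (0 : ℝ) < T := by exact_mod_cast hT1
    have hL : 0 ≤ Real.log T := Real.log_natCast_nonneg _
    have hsub : (Icc N (N + Y)).filter P ⊆ (range q).biUnion (fun r =>
        ((Icc T (T + (Y + 1))).filter (fun t => P (r + q * t))).image (fun t => r + q * t)) := by
      intro n hn
      rw [mem_filter, mem_Icc] at hn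
      obtain ⟨⟨h1, h2⟩, h3⟩ := hn
      have hdm := Nat.mod_add_div n q
      have hmod := Nat.mod_lt n hq
      rw [mem_biUnion]
      refine ⟨n % q, mem_range.2 hmod, ?_⟩
      rw [mem_image]
      refine ⟨n / q, ?_, hdm⟩
      rw [mem_filter, mem_Icc, hdm]
      refine ⟨⟨Nat.div_le_div_right h1, ?_⟩, h3⟩
      rw [← Nat.lt_succ_iff, Nat.div_lt_iff_lt_mul hq]
      have h4 := Nat.lt_div_mul_add hq (a := N)
      have h5 : N / q * q = T * q := rfl
      rw [h5] at h4
      have h6 : Y + 1 ≤ (Y + 1) * q := Nat.le_mul_of_pos_right _ hq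
      calc n ≤ N + Y := h2
        _ < T * q + q + (Y + 1) := by omega
        _ ≤ T * q + q + (Y + 1) * q := by omega
        _ = (T + (Y + 1)).succ * q := by rw [Nat.succ_eq_add_one]; ring
    have hY' : ((Y + 1 : ℕ) : ℝ) ≤ A * (1 + Real.log T) := by
      push_cast
      have h4 := Nat.lt_div_mul_add hq (a := N)
      have h5 : N < 2 * q * T := by
        have : N / q * q = T * q := rfl
        rw [this] at h4
        nlinarith
      have hN0 : (0 : ℝ) < N := by exact_mod_cast (by omega : 0 < N)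
      have h6 : Real.log N ≤ Real.log (2 * q) + Real.log T := by
        rw [← Real.log_mul (by positivity) hT0.ne']
        apply Real.log_le_log hN0
        exact_mod_cast h5.le
      rw [hA]
      nlinarith [mul_nonneg hlq hL]
    refine (card_le_card hsub).trans (card_biUnion_le.trans ?_)
    refine le_trans (sum_le_sum fun r hr => card_image_le.trans
      (hZ' r (mem_range.1 hr) T (Y + 1) hT1 hY')) ?_
    omega

/-- from windows to counting -/
theorem density (P : ℕ → Prop) [DecidablePred P] (Z : ℕ)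
    (h : ∀ N Y : ℕ, (Y : ℝ) ≤ 1 + Real.log N → ((Icc N (N + Y)).filter P).card ≤ Z) :
    ∃ C : ℝ, 0 ≤ C ∧ ∀ N : ℕ, 2 ≤ N →
      (((range N).filter P).card : ℝ) ≤ C * (N / Real.log N) := by
  refine ⟨4 + 4 * Z, by positivity, fun N hN => ?_⟩
  have hN1 : (1 : ℝ) < N := by exact_mod_cast hN
  have hN0 : (0 : ℝ) < N := by linarith
  set L := Real.log N with hL
  have hL0 : 0 < L := Real.log_pos hN1
  set s : ℕ := Nat.sqrt N with hs
  have hs1 : (s : ℝ) ≤ Real.sqrt N := by
    apply Real.le_sqrt_of_sq_le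
    exact_mod_cast Nat.sqrt_le' N
  have hsN : s ≤ N := Nat.sqrt_le_self N
  have hs2 : N < (s + 1) ^ 2 := Nat.lt_succ_sqrt' N
  -- log N ≤ 2 log (s + 1)
  have hlog : L ≤ 2 * Real.log ((s : ℝ) + 1) := by
    have h1 : (N : ℝ) ≤ ((s : ℝ) + 1) ^ 2 := by exact_mod_cast hs2.le
    calc L ≤ Real.log (((s : ℝ) + 1) ^ 2) := Real.log_le_log hN0 h1
      _ = 2 * Real.log ((s : ℝ) + 1) := by rw [Real.log_pow]; norm_num
  have hLs : L ≤ 2 * Real.sqrt N := by
    have h1 : Real.log N = 2 * Real.log (Real.sqrt N) := by rw [Real.log_sqrt hN0.le]; ring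
    have h2 := Real.log_le_sub_one_of_pos (Real.sqrt_pos.2 hN0)
    rw [hL, h1]
    linarith
  set y : ℕ := ⌊Real.log ((s : ℝ) + 1)⌋₊ with hy
  have hs0 : (0 : ℝ) ≤ s := Nat.cast_nonneg _
  have hy1 : (y : ℝ) ≤ Real.log ((s : ℝ) + 1) := Nat.floor_le (Real.log_nonneg (by linarith))
  have hy2 : Real.log ((s : ℝ) + 1) < (y : ℝ) + 1 := Nat.lt_floor_add_one _
  set J : ℕ := N / (y + 1) + 1 with hJ
  have hcov := card_cover P (s + 1) y Z J (fun j _ => h _ _ (by
    refine hy1.trans ?_
    have h1 : Real.log ((s : ℝ) + 1) ≤ Real.log ((s + 1 + j * (y + 1) : ℕ) : ℝ) := by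
      apply Real.log_le_log (by positivity)
      have : s + 1 ≤ s + 1 + j * (y + 1) := Nat.le_add_right _ _
      exact_mod_cast this
    linarith))
  have hsub : (range N).filter P ⊆ range (s + 1) ∪
      (Ico (s + 1) (s + 1 + J * (y + 1))).filter P := by
    intro n hn
    rw [mem_filter, mem_range] at hn
    rw [mem_union, mem_range, mem_filter, mem_Ico]
    by_cases h1 : n < s + 1
    · exact Or.inl h1
    · refine Or.inr ⟨⟨not_lt.1 h1, ?_⟩, hn.2⟩
      have h2 := Nat.lt_div_mul_add (Nat.succ_pos y) (a := N)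
      rw [Nat.succ_eq_add_one] at h2
      have h3 : J * (y + 1) = N / (y + 1) * (y + 1) + (y + 1) := by rw [hJ]; ring
      omega
  have hcard : (((range N).filter P).card : ℝ) ≤ (s + 1) + J * Z := by
    have h1 := (card_le_card hsub).trans ((card_union_le _ _).trans
      (Nat.add_le_add_left hcov _))
    rw [card_range] at h1
    exact_mod_cast h1
  have hJ1 : (J : ℝ) ≤ 4 * (N / L) := by
    have h1 : ((N / (y + 1) : ℕ) : ℝ) ≤ 2 * (N / L) := by
      refine Nat.cast_div_le.trans ?_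
      push_cast
      have h2 : L / 2 ≤ (y : ℝ) + 1 := by linarith
      calc (N : ℝ) / ((y : ℝ) + 1) ≤ N / (L / 2) :=
            div_le_div_of_nonneg_left hN0.le (by positivity) h2
        _ = 2 * (N / L) := by field_simp
    have h2 : (1 : ℝ) ≤ 2 * (N / L) := by
      have h3 : L ≤ N := by
        have := Real.log_le_sub_one_of_pos hN0
        linarith
      have : 1 ≤ N / L := by rwa [one_le_div hL0]
      linarith
    rw [hJ]
    push_cast
    linarith
  have hs3 : (s : ℝ) + 1 ≤ 2 * (N / L) * 2 := by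
    have h1 : Real.sqrt N ≤ 2 * (N / L) := by
      rw [← mul_div_assoc, le_div_iff₀ hL0]
      calc Real.sqrt N * L ≤ Real.sqrt N * (2 * Real.sqrt N) :=
            mul_le_mul_of_nonneg_left hLs (Real.sqrt_nonneg _)
        _ = 2 * (Real.sqrt N * Real.sqrt N) := by ring
        _ = 2 * N := by rw [Real.mul_self_sqrt hN0.le]
    have h2 : (1 : ℝ) ≤ 2 * (N / L) := by
      have h3 : L ≤ N := by
        have := Real.log_le_sub_one_of_pos hN0
        linarith
      have : 1 ≤ N / L := by rwa [one_le_div hL0]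
      linarith
    linarith
  have hZ0 : (0 : ℝ) ≤ Z := Nat.cast_nonneg _
  have hq : 0 ≤ (N : ℝ) / L := by positivity
  calc (((range N).filter P).card : ℝ) ≤ (s + 1) + J * Z := hcard
    _ ≤ 2 * (N / L) * 2 + 4 * (N / L) * Z := by
        have := mul_le_mul_of_nonneg_right hJ1 hZ0
        linarith
    _ = (4 + 4 * Z) * (N / L) := by ring

end Pool.Agent.K3h9.LW
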