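import Pool.Agent.K3h9.LW.Win
import Pool.Agent.K3h9.LW.Cov
import Pool.Agent.TH997.UP.PD
import Pool.Agent.TH997.UP.CL
import Pool.Agent.TH997.DD.SNDS
import Pool.Agent.TH997.DD.KRS
import Pool.Agent.TH997.DD.RESA
import Pool.Agent.TH997.DD.RESB
import Pool.Agent.TH997.DD.Fin2

/-!
# Linear recurrences without certificate have few nonpositive terms in windows of logarithmic length
-/

set_option autoImplicit false

namespace Pool.Agent.K3h9.LW

open Finset Pool.Agent.H612.LR Pool.Agent.TH997.DD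
open Pool.Agent.TH997.UP (RootK)
open scoped Classical

/-- Every interval `[N, N + log N]` contains a bounded number of indices of nonpositive terms. -/
def Few (l : Rec) : Prop := ∃ Z : ℕ, ∀ N Y : ℕ, (Y : ℝ) ≤ 1 + Real.log N →
  ((Icc N (N + Y)).filter (fun n => seq l n ≤ 0)).card ≤ Z

theorem rootK_of_isRoot {K : Type} [Field K] [NumberField K] (φ : K →+* ℂ) (l : Rec) (α : K)
    (h : IsRoot l (φ α)) : RootK K l α := by
  unfold RootK
  unfold IsRoot at h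
  apply φ.injective
  rw [map_pow, h, map_sum]
  refine Finset.sum_congr rfl fun i _ => ?_
  rw [map_mul, map_pow]
  congr 1
  simp

/-- one residue class -/
theorem cls_win (l : Rec) (lam : ℕ → ℂ) (c : ℕ → ℕ → ℂ) (q0 r : ℕ) (ρ : ℝ) (J : ℕ)
    (S1 S2 : Finset ℕ) (hl : 1 ≤ l.length) (hrep : Rep l lam c) (hq : 1 ≤ q0)
    (hTOR : ∀ z w : ℂ, IsRoot l z → IsRoot l w → z ≠ 0 → w ≠ 0 → ∀ t : ℕ, 1 ≤ t → z ^ t = w ^ t →
      z ^ q0 = w ^ q0) (hC : Cls l lam c q0 r ρ J S1 S2) :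
    ∃ (c' : ℝ) (Z : ℕ), 0 < c' ∧ ∀ T Y : ℕ, 1 ≤ T → (Y : ℝ) ≤ c' * Real.log T →
      ((Icc T (T + Y)).filter (fun t => seq l (r + q0 * t) ≤ 0)).card ≤ Z := by
  obtain ⟨C, hCb⟩ := resb l lam c q0 r ρ J S1 S2 hl hrep hq hC
  obtain ⟨K, iF, iN, φ, -, hroots⟩ := t_FLD l hl
  obtain ⟨Cp, hPD⟩ := Pool.Agent.TH997.UP.pd
  obtain ⟨v, p, N', hp, hp3, hvp, hN1, -, hv⟩ := hPD l K hl
  have hρ := hC.rho
  have hρc : (ρ : ℂ) ≠ 0 := by exact_mod_cast hρ.ne'
  have hα : ∀ i : ℕ, ∃ α : K, i ∈ S1 → φ α = lam i := by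
    intro i
    by_cases hi : i ∈ S1
    · obtain ⟨α, hα⟩ := hroots (lam i) (hC.s1 i hi).2.2
      exact ⟨α, fun _ => hα⟩
    · exact ⟨0, fun h => absurd h hi⟩
  choose α hα using hα
  have hlam0 : ∀ i ∈ S1, lam i ≠ 0 := by
    intro i hi h
    have h1 := (hC.s1 i hi).2.1
    rw [h, norm_zero] at h1
    exact hρ.ne h1
  have hα0 : ∀ i ∈ S1, α i ≠ 0 := by
    intro i hi h
    apply hlam0 i hi
    rw [← hα i hi, h, map_zero]
  set M : Finset K := S1.image (fun i => α i ^ q0) with hM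
  set a : K → ℂ := fun μ => ∑ i ∈ S1.filter (fun i => α i ^ q0 = μ),
    c i J * (lam i / (ρ : ℂ)) ^ r with ha
  set R : ℝ := ρ ^ q0 with hR
  have hR0 : 0 < R := pow_pos hρ q0
  have hsum : ∀ t : ℕ, ∑ i ∈ S1, c i J * (lam i / (ρ : ℂ)) ^ (r + q0 * t) =
      ∑ μ ∈ M, a μ * (φ μ / (R : ℂ)) ^ t := by
    intro t
    rw [← Finset.sum_fiberwise_of_maps_to (s := S1) (t := M) (g := fun i => α i ^ q0)
      (fun i hi => Finset.mem_image_of_mem _ hi)]
    apply Finset.sum_congr rfl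
    intro μ _
    simp only [ha]
    rw [Finset.sum_mul]
    apply Finset.sum_congr rfl
    intro i hi
    rw [Finset.mem_filter] at hi
    rw [← hi.2, map_pow, hα i hi.1, hR, pow_add, pow_mul]
    push_cast
    rw [← div_pow]
    ring
  set B : ℕ := Module.finrank ℚ K + (∑ μ ∈ M, ⌈Height.logHeight₁ μ⌉₊) + 1 with hB
  have hBh : ∀ μ ∈ M, Height.logHeight₁ μ ≤ B := by
    intro μ hμ
    have h1 : ⌈Height.logHeight₁ μ⌉₊ ≤ ∑ ν ∈ M, ⌈Height.logHeight₁ ν⌉₊ :=
      Finset.single_le_sum (f := fun ν => ⌈Height.logHeight₁ ν⌉₊) (fun ν _ => Nat.zero_le _) hμ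
    have h2 : (⌈Height.logHeight₁ μ⌉₊ : ℝ) ≤ B := by
      exact_mod_cast (by omega : ⌈Height.logHeight₁ μ⌉₊ ≤ B)
    exact (Nat.le_ceil _).trans h2
  have hMR : ∀ μ ∈ M, ‖φ μ‖ = R := by
    intro μ hμ
    obtain ⟨i, hi, rfl⟩ := Finset.mem_image.1 hμ
    rw [map_pow, norm_pow, hα i hi, (hC.s1 i hi).2.1]
  have hne : ∃ μ ∈ M, a μ ≠ 0 := by
    by_contra hcon
    push Not at hcon
    obtain ⟨t, ht⟩ := hC.ne
    apply ht
    rw [hsum t]
    apply Finset.sum_eq_zero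
    intro μ hμ
    rw [hcon μ hμ, zero_mul]
  obtain ⟨μ0, hμ0, -⟩ := hne
  obtain ⟨c', Z, hc', hZ⟩ := win K φ v p N' B M R a C hR0 hMR
    (by
      rw [← hMR μ0 hμ0]
      exact Pool.Agent.TH997.UP.WND.le_exp φ μ0 B (hBh μ0 hμ0))
    hp hp3 hvp hN1 (by omega) (by omega)
    (fun μ hμ => by
      obtain ⟨i, hi, rfl⟩ := Finset.mem_image.1 hμ
      obtain ⟨h1, h2⟩ := hv (α i) (hα0 i hi) (rootK_of_isRoot φ l (α i) (by
        rw [hα i hi]; exact (hC.s1 i hi).2.2))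
      refine ⟨by rw [map_pow, h1, one_pow], ?_, hBh _ hμ⟩
      have e : (α i ^ q0) ^ N' - 1 = (α i ^ N') ^ q0 - 1 := by
        rw [← pow_mul, ← pow_mul, mul_comm]
      rw [e]
      exact (Pool.Agent.TH997.UP.CL.v_pow_sub_one v (α i ^ N')
        (by rw [map_pow, h1, one_pow]) q0).trans h2)
    (fun μ hμ ν hν hne t ht he => by
      obtain ⟨i, hi, rfl⟩ := Finset.mem_image.1 hμ
      obtain ⟨j, hj, rfl⟩ := Finset.mem_image.1 hν
      apply hne
      apply φ.injective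
      rw [map_pow, map_pow]
      refine hTOR (φ (α i)) (φ (α j)) (by rw [hα i hi]; exact (hC.s1 i hi).2.2)
        (by rw [hα j hj]; exact (hC.s1 j hj).2.2)
        (by rw [Ne, map_eq_zero]; exact hα0 i hi) (by rw [Ne, map_eq_zero]; exact hα0 j hj)
        (q0 * t) (Nat.mul_pos hq ht) ?_
      rw [← map_pow, ← map_pow, pow_mul, pow_mul, he])
    (by
      by_contra hcon
      push Not at hcon
      obtain ⟨t, ht⟩ := hC.ne
      apply ht
      rw [hsum t]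
      apply Finset.sum_eq_zero
      intro μ hμ
      rw [hcon μ hμ, zero_mul])
  refine ⟨c', Z, hc', fun T Y hT hY => le_trans (Finset.card_le_card ?_) (hZ T Y hT hY)⟩
  intro t ht
  rw [Finset.mem_filter] at ht ⊢
  refine ⟨ht.1, ?_⟩
  rw [← hsum t]
  exact hCb t ht.2

/-- Without certificate there are few nonpositive terms in every window of logarithmic length. -/
theorem few_of_no_cert (l : Rec) (lam : ℕ → ℂ) (c : ℕ → ℕ → ℂ) (q0 : ℕ) (hl : 1 ≤ l.length)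
    (hrep : Rep l lam c) (hroot : ∀ i < l.length, (∃ j < l.length, c i j ≠ 0) → IsRoot l (lam i))
    (hq : 1 ≤ q0)
    (hTOR : ∀ z w : ℂ, IsRoot l z → IsRoot l w → z ≠ 0 → w ≠ 0 → ∀ t : ℕ, 1 ≤ t → z ^ t = w ^ t →
      z ^ q0 = w ^ q0)
    (hno : ∀ d : CD, d.lam = lam → d.c = c → d.q = q0 → ¬ d.Pre l) : Few l := by
  refine classes (fun n => seq l n ≤ 0) q0 hq fun r _ => ?_
  obtain ⟨ρ, J, S1, S2, hcls⟩ := resa l lam c q0 hl hrep hroot hq hno r
  exact cls_win l lam c q0 r ρ J S1 S2 hl hrep hq hTOR hcls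

/-- The dichotomy. -/
theorem few_of_not_synd (l : Rec) (hl : l ≠ []) (h : ¬ Synd l) : Few l := by
  have hk : 1 ≤ l.length := List.length_pos_iff.2 hl
  obtain ⟨A0, hA0⟩ := snds krs
  obtain ⟨C, hC⟩ := t_TOR t_TORK
  obtain ⟨A1, hA1⟩ := t_CMP (t_DEC t_DIR) A0 C
  obtain ⟨lam, c, hrep, hmul, halg⟩ := t_RPE l hk
  obtain ⟨q0, hq1, hq2, hq3⟩ := hC l hk
  have hroot : ∀ i < l.length, (∃ j < l.length, c i j ≠ 0) → IsRoot l (lam i) := by
    rintro i hi ⟨j, hj, hne⟩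
    rw [t_ROOT l _ hk]
    by_contra hcon
    exact hne (hmul i hi j hj (by rw [Multiset.count_eq_zero.2 hcon]; exact Nat.zero_le _))
  refine few_of_no_cert l lam c q0 hk hrep hroot hq1 hq3 fun d e1 e2 e3 e4 => h ?_
  exact hA0 l _ hk (hA1 l d hk (by rw [e1, e2]; exact hrep) e4 (by rw [e3]; exact hq2))

/-- Few terms in windows: density `O(1 / log N)`. -/
theorem few_density (l : Rec) (h : Few l) : ∃ C : ℝ, 0 ≤ C ∧ ∀ N : ℕ, 2 ≤ N →
    (((range N).filter (fun n => seq l n ≤ 0)).card : ℝ) ≤ C * (N / Real.log N) := by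
  obtain ⟨Z, hZ⟩ := h
  exact density _ Z hZ

theorem sparse_of_few (l : Rec) (h : Few l) : Sparse l := by
  obtain ⟨C, hC0, hC⟩ := few_density l h
  have hl2 : 0 < Real.log 2 := Real.log_pos (by norm_num)
  refine ⟨C / Real.log 2, fun N hN => (hC N hN).trans ?_⟩
  have hN2 : (2 : ℝ) ≤ N := by exact_mod_cast hN
  have hN0 : (0 : ℝ) < N := by linarith
  have hL : 0 < Real.log N := Real.log_pos (by linarith)
  set θ : ℝ := (1 / 2 : ℝ) ^ l.length with hθ
  have hθ0 : 0 < θ := by positivity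
  have hθ1 : θ ≤ 1 := pow_le_one₀ (by norm_num) (by norm_num)
  have hLθ : 0 < Real.log N ^ θ := Real.rpow_pos_of_pos hL θ
  have hkey : Real.log N ^ θ * Real.log 2 ≤ Real.log N := by
    rcases le_total 1 (Real.log N) with h1 | h1
    · have h2 := Real.rpow_le_rpow_of_exponent_le h1 hθ1
      rw [Real.rpow_one] at h2
      have h3 : Real.log 2 ≤ 1 := by
        have := Real.log_two_lt_d9
        linarith
      calc Real.log N ^ θ * Real.log 2 ≤ Real.log N ^ θ * 1 :=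
            mul_le_mul_of_nonneg_left h3 hLθ.le
        _ ≤ Real.log N := by rw [mul_one]; exact h2
    · have h2 := Real.rpow_le_one hL.le h1 hθ0.le
      calc Real.log N ^ θ * Real.log 2 ≤ 1 * Real.log 2 :=
            mul_le_mul_of_nonneg_right h2 hl2.le
        _ ≤ Real.log N := by rw [one_mul]; exact Real.log_le_log (by norm_num) hN2
  rw [div_mul_eq_mul_div, le_div_iff₀ hl2]
  rw [mul_assoc]
  refine mul_le_mul_of_nonneg_left ?_ hC0
  rw [div_mul_eq_mul_div, div_le_div_iff₀ hL hLθ]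
  calc (N : ℝ) * Real.log 2 * Real.log N ^ θ = N * (Real.log N ^ θ * Real.log 2) := by ring
    _ ≤ N * Real.log N := mul_le_mul_of_nonneg_left hkey hN0.le

end Pool.Agent.K3h9.LW
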