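import Pool.Agent.TH997.UP.WND
import Pool.Agent.TH997.UP.ZBK
import Pool.Agent.TH997.UP.C9K
import Pool.Agent.TH997.UP.DETH
import Pool.Agent.TH997.UP.RKK
import Pool.Agent.TH997.UP.CRM

/-!
# An exponential sum with unimodular bases is polynomially small at few integers of a window of
logarithmic length
-/

set_option autoImplicit false

namespace Pool.Agent.K3h9.LW

open Finset Pool.Agent.TH997.UP
open scoped Classical

/-- The analytic part: if the exponential sum is `O(1 / T)` at the indices of a nonzero minor in a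
window of length at most `c log T` then `T` is bounded. -/
theorem bound_T (A0 D E0 G c : ℝ) (hA : 0 < A0) (hD : 0 ≤ D) (hG : 0 ≤ G)
    (hc : c * (2 * (D + 1)) = 1) (T Y : ℕ) (hT : 1 ≤ T) (hY : (Y : ℝ) ≤ c * Real.log T)
    (h : A0 * Real.exp (-(D * Y + E0)) ≤ G / ((T : ℝ) + 1)) :
    (T : ℝ) ≤ (G * Real.exp E0 / A0) ^ 2 := by
  have hT0 : (0 : ℝ) < T := by exact_mod_cast hT
  have hL : 0 ≤ Real.log T := Real.log_natCast_nonneg _
  have h1 : D * Y ≤ Real.log T / 2 := by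
    have h2 : D * Y ≤ (D + 1) * Y := by
      have : (0 : ℝ) ≤ Y := Nat.cast_nonneg _
      nlinarith
    have h3 : (D + 1) * Y ≤ (D + 1) * (c * Real.log T) := mul_le_mul_of_nonneg_left hY (by linarith)
    have h4 : (D + 1) * (c * Real.log T) = (c * (2 * (D + 1))) * (Real.log T / 2) := by ring
    rw [h4, hc, one_mul] at h3
    linarith
  have hs : Real.exp (Real.log T / 2) = Real.sqrt T := by
    rw [Real.sqrt_eq_rpow, Real.rpow_def_of_pos hT0]
    congr 1
    ring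
  have hsp : 0 < Real.sqrt T := Real.sqrt_pos.2 hT0
  have h5 : Real.exp (-(Real.log T / 2 + E0)) ≤ Real.exp (-(D * Y + E0)) :=
    Real.exp_le_exp.2 (by linarith)
  have h6 : Real.exp (-(Real.log T / 2 + E0)) = (Real.sqrt T)⁻¹ * (Real.exp E0)⁻¹ := by
    rw [neg_add, Real.exp_add, Real.exp_neg, Real.exp_neg, hs]
  have h7 : A0 * ((Real.sqrt T)⁻¹ * (Real.exp E0)⁻¹) ≤ G / (T : ℝ) := by
    rw [← h6]
    refine (mul_le_mul_of_nonneg_left h5 hA.le).trans (h.trans ?_)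
    exact div_le_div_of_nonneg_left hG hT0 (by linarith)
  have hE : 0 < Real.exp E0 := Real.exp_pos _
  have h8 : Real.sqrt T ≤ G * Real.exp E0 / A0 := by
    rw [le_div_iff₀ hA]
    have h9 : A0 * ((Real.sqrt T)⁻¹ * (Real.exp E0)⁻¹) * (T * Real.exp E0) ≤
        G / (T : ℝ) * (T * Real.exp E0) := mul_le_mul_of_nonneg_right h7 (by positivity)
    have h10 : G / (T : ℝ) * (T * Real.exp E0) = G * Real.exp E0 := by field_simp
    have h11 : A0 * ((Real.sqrt T)⁻¹ * (Real.exp E0)⁻¹) * (T * Real.exp E0) = Real.sqrt T * A0 := by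
      have : (T : ℝ) = Real.sqrt T * Real.sqrt T := (Real.mul_self_sqrt hT0.le).symm
      calc A0 * ((Real.sqrt T)⁻¹ * (Real.exp E0)⁻¹) * (T * Real.exp E0)
          = A0 * ((Real.sqrt T)⁻¹ * (Real.exp E0)⁻¹) * ((Real.sqrt T * Real.sqrt T) * Real.exp E0) := by
            rw [← this]
        _ = Real.sqrt T * A0 := by field_simp
    linarith
  calc (T : ℝ) = Real.sqrt T ^ 2 := (Real.sq_sqrt hT0.le).symm
    _ ≤ _ := pow_le_pow_left₀ hsp.le h8 2

/-- **Few small values in a window of logarithmic length.** -/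
theorem win (K : Type) [Field K] [NumberField K] (φ : K →+* ℂ) (v : NumberField.FinitePlace K)
    (p N' B : ℕ) (M : Finset K) (R : ℝ) (a : K → ℂ) (C : ℝ) (hR : 0 < R)
    (hMR : ∀ μ ∈ M, ‖φ μ‖ = R) (hRB : R ≤ Real.exp B)
    (hp : p.Prime) (hp3 : 3 ≤ p) (hvp : v (p : K) < 1) (hN1 : 1 ≤ N') (hB1 : 1 ≤ B)
    (hdeg : Module.finrank ℚ K ≤ B)
    (hM : ∀ μ ∈ M, v μ = 1 ∧ v (μ ^ N' - 1) ≤ v (p : K) ∧ Height.logHeight₁ μ ≤ B)
    (hnd : ∀ μ ∈ M, ∀ ν ∈ M, μ ≠ ν → ∀ t : ℕ, 1 ≤ t → μ ^ t ≠ ν ^ t)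
    (ha : ∃ μ ∈ M, a μ ≠ 0) :
    ∃ (c : ℝ) (Z : ℕ), 0 < c ∧ ∀ T Y : ℕ, 1 ≤ T → (Y : ℝ) ≤ c * Real.log T →
      ((Icc T (T + Y)).filter
        (fun t : ℕ => ‖∑ μ ∈ M, a μ * (φ μ / (R : ℂ)) ^ t‖ ≤ C / ((t : ℝ) + 1))).card ≤ Z := by
  obtain ⟨μ0, hμ0, ha0⟩ := ha
  set n := M.card with hn
  set D : ℝ := n.factorial * (n * B) + B * n with hD
  set E0 : ℝ := n.factorial * B with hE0
  set G : ℝ := n * n.factorial * |C| with hG
  have hD0 : 0 ≤ D := by positivity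
  have hG0 : 0 ≤ G := by positivity
  set c : ℝ := 1 / (2 * (D + 1)) with hc
  have hc0 : 0 < c := by positivity
  have hc1 : c * (2 * (D + 1)) = 1 := by rw [hc]; field_simp
  set T0 : ℝ := (G * Real.exp E0 / ‖a μ0‖) ^ 2 with hT0
  set Z0 : ℕ := N' * (8 * n.factorial * (n ^ 2 * N' * B + B) + 4) with hZ0
  refine ⟨c, Z0 + ⌈T0⌉₊ + 1, hc0, fun T Y hT hY => ?_⟩
  set S := (Icc T (T + Y)).filter
    (fun t : ℕ => ‖∑ μ ∈ M, a μ * (φ μ / (R : ℂ)) ^ t‖ ≤ C / ((t : ℝ) + 1)) with hS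
  by_cases hcard : S.card ≤ Z0
  · omega
  rw [not_le] at hcard
  have hT00 : (0 : ℝ) < T := by exact_mod_cast hT
  obtain ⟨t, htS, hdet⟩ := WND.minor (zbk c9k deth) rkk K v p N' n B M S hp hp3 hvp hN1 hB1 le_rfl
    hdeg hM hnd hcard
  have htS' : ∀ j, T ≤ t j ∧ t j ≤ T + Y ∧
      ‖∑ μ ∈ M, a μ * (φ μ / (R : ℂ)) ^ t j‖ ≤ C / ((t j : ℝ) + 1) := by
    intro j
    have := htS j
    rw [hS, Finset.mem_filter, Finset.mem_Icc] at this
    exact ⟨this.1.1, this.1.2, this.2⟩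
  have hts : ∀ j, t j = T + (t j - T) := fun j => by have := (htS' j).1; omega
  have hsY : ∀ j, t j - T ≤ Y := fun j => tsub_le_iff_left.2 (htS' j).2.1
  rw [WND.det_shift M.card T (fun i => (M.equivFin.symm i : K)) t (fun j => t j - T) hts] at hdet
  have hΔ := right_ne_zero_of_mul hdet
  have hht := deth K M.card B Y (fun i => (M.equivFin.symm i : K)) (fun j => t j - T) hdeg
    (fun i => (hM _ (M.equivFin.symm i).2).2.2) hsY
  have hH := WND.exp_le φ _ hΔ _ hht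
  have hnrm := WND.norm_det φ M.card T Y B R _ hR hRB (fun i => (M.equivFin.symm i : K))
    (fun i => hMR _ (M.equivFin.symm i).2) t (fun j => t j - T) hts hsY hH
  have hcr := crm M.card (fun i => φ (M.equivFin.symm i : K) / (R : ℂ))
    (fun i => a (M.equivFin.symm i : K)) t (|C| / ((T : ℝ) + 1))
    (fun i => by
      rw [norm_div, hMR _ (M.equivFin.symm i).2, Complex.norm_real,
        Real.norm_of_nonneg hR.le, div_self hR.ne'])
    (fun j => by
      rw [WND.sum_equiv M (fun μ => a μ * (φ μ / (R : ℂ)) ^ t j)]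
      refine (htS' j).2.2.trans ?_
      have h1 : (T : ℝ) ≤ t j := by exact_mod_cast (htS' j).1
      calc C / ((t j : ℝ) + 1) ≤ |C| / ((t j : ℝ) + 1) := by
            have : (0 : ℝ) ≤ (t j : ℝ) + 1 := by positivity
            exact div_le_div_of_nonneg_right (le_abs_self _) this
        _ ≤ |C| / ((T : ℝ) + 1) :=
            div_le_div_of_nonneg_left (abs_nonneg _) (by positivity) (by linarith))
    (M.equivFin ⟨μ0, hμ0⟩)
  have hcr' : ‖a μ0‖ * ‖(Matrix.of fun j i : Fin M.card =>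
      (φ (M.equivFin.symm i : K) / (R : ℂ)) ^ t j).det‖ ≤ G / ((T : ℝ) + 1) := by
    rw [Equiv.symm_apply_apply] at hcr
    refine hcr.trans (le_of_eq ?_)
    rw [hG]
    ring
  have hb := bound_T ‖a μ0‖ D E0 G c (norm_pos_iff.2 ha0) hD0 hG0 hc1 T Y hT hY (by
    refine le_trans (mul_le_mul_of_nonneg_left ?_ (norm_nonneg _)) hcr'
    refine le_trans (le_of_eq ?_) hnrm
    rw [← Real.exp_add, hD, hE0]
    congr 1
    ring)
  -- the window is short
  have hScard : S.card ≤ Y + 1 := by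
    refine (Finset.card_filter_le _ _).trans ?_
    rw [Nat.card_Icc]
    omega
  have hYT : (Y : ℝ) ≤ T := by
    have h1 : Real.log T ≤ T := (Real.log_le_sub_one_of_pos hT00).trans (by linarith)
    have h2 : c ≤ 1 := by nlinarith [mul_nonneg hc0.le hD0]
    have h3 : 0 ≤ Real.log (T : ℝ) := Real.log_natCast_nonneg _
    nlinarith
  have h1 : (Y : ℝ) ≤ (⌈T0⌉₊ : ℝ) := hYT.trans (hb.trans (Nat.le_ceil _))
  have h2 : Y ≤ ⌈T0⌉₊ := by exact_mod_cast h1
  omega

end Pool.Agent.K3h9.LW
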